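import Mathlib

set_option autoImplicit false

namespace Pool.Agent.Results.MP_1375b8_an.Bounded

open Real Finset

/-- `y` solves the recursion of the problem with parameter `μ`. -/
def IsSol (μ : ℝ) (y : ℕ → ℝ) : Prop :=
  (∀ n, y (2 * n + 1) = y (2 * n) + μ * (1 - exp (y n))) ∧
    ∀ n, 1 ≤ n → y (2 * n) = y (2 * n - 1) + μ * (1 - exp (y n))

lemma step {μ : ℝ} {y : ℕ → ℝ} (h : IsSol μ y) (m : ℕ) :
    y (m + 1) = y m + μ * (1 - exp (y ((m + 1) / 2))) := by
  rcases Nat.even_or_odd' m with ⟨k, rfl | rfl⟩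
  · rw [h.1, show (2 * k + 1) / 2 = k by omega]
  · have := h.2 (k + 1) (by omega)
    rw [show 2 * (k + 1) - 1 = 2 * k + 1 by omega] at this
    rw [show 2 * k + 1 + 1 = 2 * (k + 1) by ring, this, show 2 * (k + 1) / 2 = k + 1 by omega]

/-- Abstract form: `z (m+1) = z m - G ((m+1)/2)` where `G i` is comparable with `z i`. -/
structure Sys (c C : ℝ) (z G : ℕ → ℝ) : Prop where
  st : ∀ m, z (m + 1) = z m - G ((m + 1) / 2)
  lo : ∀ i, 0 ≤ z i → c * z i ≤ G i ∧ G i ≤ C * z i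
  hi : ∀ i, z i ≤ 0 → C * z i ≤ G i ∧ G i ≤ c * z i

lemma Sys.neg {c C : ℝ} {z G : ℕ → ℝ} (h : Sys c C z G) :
    Sys c C (fun i => -z i) (fun i => -G i) where
  st m := by rw [h.st]; ring
  lo i hi := by have := h.hi i (by linarith); constructor <;> linarith
  hi i hi := by have := h.lo i (by linarith); constructor <;> linarith

lemma Sys.tele {c C : ℝ} {z G : ℕ → ℝ} (h : Sys c C z G) (a : ℕ) (b : ℕ) (hab : a ≤ b) :
    z (2 * b + 1) = z (2 * a + 1) - 2 * ∑ i ∈ Ico (a + 1) (b + 1), G i := by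
  induction b, hab using Nat.le_induction with
  | base => simp
  | succ b hb ih =>
    rw [sum_Ico_succ_top (by omega), show 2 * (b + 1) + 1 = 2 * b + 1 + 1 + 1 by ring, h.st, h.st,
      ih, show (2 * b + 1 + 1 + 1) / 2 = b + 1 by omega, show (2 * b + 1 + 1) / 2 = b + 1 by omega]
    ring

lemma mono_of {z : ℕ → ℝ} {a b : ℕ} (h : ∀ m, a ≤ m → m < b → z m ≤ z (m + 1)) {i j : ℕ}
    (hi : a ≤ i) (hij : i ≤ j) (hj : j ≤ b) : z i ≤ z j := by
  induction j, hij using Nat.le_induction with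
  | base => rfl
  | succ j hj' ih => exact (ih (by omega)).trans (h j (by omega) (by omega))

lemma Sys.zero_back {c C : ℝ} {z G : ℕ → ℝ} (h : Sys c C z G) (hc : 0 < c) (n : ℕ)
    (hz : ∀ m, n + 1 ≤ m → z m = 0) : z 1 = 0 := by
  induction n with
  | zero => exact hz 1 le_rfl
  | succ n ih =>
    refine ih fun m hm => ?_
    have h1 := h.st (2 * m)
    rw [hz _ (by omega), hz _ (by omega), show (2 * m + 1) / 2 = m by omega] at h1
    rcases le_total 0 (z m) with h2 | h2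
    · have := (h.lo m h2).1; nlinarith
    · have := (h.hi m h2).2; nlinarith

lemma Sys.osc {c C : ℝ} {z G : ℕ → ℝ} (h : Sys c C z G) (hc : 0 < c) (h1 : z 1 ≠ 0) (τ : ℕ) :
    ∃ m, τ ≤ m ∧ z m < 0 := by
  by_contra hn
  push Not at hn
  obtain ⟨n, hn1, hn2⟩ : ∃ n : ℕ, 1 / c < n ∧ 2 * τ + 1 ≤ n := by
    obtain ⟨n, hn⟩ := exists_nat_gt (1 / c)
    exact ⟨n + (2 * τ + 1), by push_cast; linarith [Nat.cast_nonneg (α := ℝ) τ], by omega⟩
  have anti : ∀ i j, 2 * τ ≤ i → i ≤ j → z j ≤ z i := fun i j hi hij => by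
    have := mono_of (z := fun i => -z i) (a := 2 * τ) (b := j) (fun m hm _ => by
      have h2 := hn ((m + 1) / 2) (by omega)
      have := (h.lo _ h2).1
      have := mul_nonneg hc.le h2
      rw [h.st]; linarith) hi hij le_rfl
    linarith
  have h2 := h.tele n (2 * n + 1) (by omega)
  have h3 : ∑ i ∈ Ico (n + 1) (2 * n + 1 + 1), c * z (2 * n + 1) ≤
      ∑ i ∈ Ico (n + 1) (2 * n + 1 + 1), G i := by
    refine sum_le_sum fun i hi => ?_
    rw [mem_Ico] at hi
    exact (mul_le_mul_of_nonneg_left (anti _ _ (by omega) (by omega)) hc.le).trans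
      (h.lo i (hn i (by omega))).1
  rw [sum_const, Nat.card_Ico, show 2 * n + 1 + 1 - (n + 1) = n + 1 by omega, nsmul_eq_mul] at h3
  have h4 := hn (2 * (2 * n + 1) + 1) (by omega)
  have h5 := hn (2 * n + 1) (by omega)
  rw [div_lt_iff₀ hc] at hn1
  push_cast at h3
  have h6 : z (2 * n + 1) ≤ 0 := by nlinarith
  refine h1 (h.zero_back hc (2 * n) fun m hm => le_antisymm ?_ (hn m (by omega)))
  exact (anti _ _ (by omega) hm).trans h6

/-- State at the start `t + 1` of a positive run. -/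
def Inv (z : ℕ → ℝ) (t : ℕ) : Prop :=
  0 < z (t + 1) ∧ ∀ m, t + 1 ≤ m → m < 2 * t + 1 → z m ≤ z (m + 1)

lemma Sys.next {c C : ℝ} {z G : ℕ → ℝ} (h : Sys c C z G) (hc : 0 < c) (hC : 0 < C)
    (h1 : z 1 ≠ 0) (N : ℕ) (hN : 3 ≤ c * N) (t : ℕ) (ht : Inv z t) :
    ∃ t', t < t' ∧ Inv (fun i => -z i) t' ∧
      (N ≤ t → N + C * N * N ≤ t → 2 * z (2 * t + 1) ≤ -z (2 * t' + 1)) := by
  classical
  have hex := h.osc hc h1 (t + 1)
  have hs := Nat.find_spec hex
  have hmin : ∀ m, t + 1 ≤ m → m < Nat.find hex → 0 ≤ z m := fun m h1 h2 => by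
    by_contra h3
    exact Nat.find_min hex h2 ⟨h1, not_le.mp h3⟩
  generalize Nat.find hex = τ at hs hmin
  have hmono := fun i j => mono_of (i := i) (j := j) ht.2
  have hτ : 2 * t + 1 < τ := by
    by_contra h3
    linarith [hmono (t + 1) τ le_rfl hs.1 (by omega), ht.1, hs.2]
  obtain ⟨t', rfl⟩ : ∃ t', τ = t' + 1 := ⟨τ - 1, by omega⟩
  refine ⟨t', by omega, ⟨by linarith [hs.2], fun m h2 h3 => ?_⟩, fun hNt hNt' => ?_⟩
  · have h4 := hmin ((m + 1) / 2) (by omega) (by omega)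
    have := (h.lo _ h4).1
    have := mul_nonneg hc.le h4
    simp only
    rw [h.st]; linarith
  have ha : 0 < z (2 * t + 1) := ht.1.trans_le (hmono _ _ le_rfl (by omega) le_rfl)
  have hN0 : (0:ℝ) < N := by nlinarith [Nat.cast_nonneg (α := ℝ) N]
  have key : ∀ (u v : ℕ) (b : ℝ), t + 1 ≤ u → u ≤ v → v ≤ t' + 1 →
      (∀ i, u ≤ i → i < v → b ≤ z i) → N * z (2 * t + 1) / 2 ≤ (v - u : ℝ) * b →
      2 * z (2 * t + 1) ≤ -z (2 * t' + 1) := by
    intro u v b h2 huv h3 h4 h5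
    have e := h.tele t t' (by omega)
    have s1 : ∑ i ∈ Ico u v, c * b ≤ ∑ i ∈ Ico u v, G i := sum_le_sum fun i hi => by
      rw [mem_Ico] at hi
      exact (mul_le_mul_of_nonneg_left (h4 i hi.1 hi.2) hc.le).trans
        (h.lo i (hmin i (by omega) (by omega))).1
    have s2 : ∑ i ∈ Ico u v, G i ≤ ∑ i ∈ Ico (t + 1) (t' + 1), G i :=
      sum_le_sum_of_subset_of_nonneg (Ico_subset_Ico h2 h3) fun i hi _ => by
        rw [mem_Ico] at hi
        have h6 := hmin i hi.1 hi.2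
        exact (mul_nonneg hc.le h6).trans (h.lo i h6).1
    rw [sum_const, Nat.card_Ico, nsmul_eq_mul, Nat.cast_sub huv] at s1
    have := mul_le_mul_of_nonneg_left h5 hc.le
    nlinarith
  by_cases hA : ∀ i, 2 * t + 1 ≤ i → i < 2 * t + 1 + N → z (2 * t + 1) / 2 ≤ z i
  · refine key (2 * t + 1) (2 * t + 1 + N) _ (by omega) (by omega) ?_ hA
      (by push_cast; linarith)
    by_contra h3
    linarith [hA (t' + 1) (by omega) (by omega), hs.2]
  · push Not at hA
    obtain ⟨i, hi1, hi2, hi3⟩ := hA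
    have hb0 : 0 < z (t + N) := by
      refine ht.1.trans_le (hmono _ _ le_rfl ?_ (by omega))
      have : 0 < N := by exact_mod_cast hN0
      omega
    have drop : ∀ k, k ≤ N → z (2 * t + 1) - k * (C * z (t + N)) ≤ z (2 * t + 1 + k) := by
      intro k hk
      induction k with
      | zero => simp
      | succ k ih =>
        have h5 : z ((2 * t + 1 + k + 1) / 2) ≤ z (t + N) :=
          hmono _ _ (by omega) (by omega) (by omega)
        have h6 := (h.lo _ (hmin ((2 * t + 1 + k + 1) / 2) (by omega) (by omega))).2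
        have h7 := mul_le_mul_of_nonneg_left h5 hC.le
        rw [← add_assoc, h.st (2 * t + 1 + k)]
        push_cast
        linarith [ih (by omega)]
    obtain ⟨k, rfl⟩ := Nat.exists_eq_add_of_le hi1
    have h5 := drop k (by omega)
    have h6 : (k : ℝ) ≤ N := by exact_mod_cast (show k ≤ N by omega)
    have h7 : z (2 * t + 1) / 2 ≤ N * (C * z (t + N)) := by
      nlinarith [mul_pos hC hb0]
    refine key (t + N) (2 * t + 1) (z (t + N)) ?_ (by omega) (by omega)
      (fun i h2 h3 => hmono _ _ ?_ h2 h3.le) ?_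
    · have : 0 < N := by exact_mod_cast hN0
      omega
    · have : 0 < N := by exact_mod_cast hN0
      omega
    · push_cast
      nlinarith

lemma Sys.unbdd {c C : ℝ} {z G : ℕ → ℝ} (h : Sys c C z G) (hc : 0 < c) (hC : 0 < C)
    (h1 : 0 < z 1) (M : ℝ) (hM : ∀ i, |z i| ≤ M) : False := by
  obtain ⟨N, hN⟩ := exists_nat_ge (3 / c)
  rw [div_le_iff₀' hc] at hN
  let St : (ℕ → ℝ) → ℕ → Prop := fun w t =>
    (∃ H, Sys c C w H) ∧ w 1 ≠ 0 ∧ (∀ i, |w i| ≤ M) ∧ Inv w t
  have nx : ∀ w t, St w t → ∃ w' t', St w' t' ∧ t < t' ∧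
      (N ≤ t → N + C * N * N ≤ t → 2 * w (2 * t + 1) ≤ w' (2 * t' + 1)) := by
    rintro w t ⟨⟨H, hH⟩, h2, h3, h4⟩
    obtain ⟨t', a, b, d⟩ := hH.next hc hC h2 N hN t h4
    exact ⟨_, t', ⟨⟨_, hH.neg⟩, by simpa using h2, by simpa using h3, b⟩, a, d⟩
  have big : ∀ j, ∃ w t, St w t ∧ j ≤ t := by
    intro j
    induction j with
    | zero => exact ⟨z, 0, ⟨⟨G, h⟩, h1.ne', hM, h1, fun m _ _ => by omega⟩, le_rfl⟩
    | succ j ih =>
      obtain ⟨w, t, h2, h3⟩ := ih
      obtain ⟨w', t', h4, h5, -⟩ := nx w t h2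
      exact ⟨w', t', h4, by omega⟩
  obtain ⟨T, hT⟩ := exists_nat_ge (N + C * N * N)
  obtain ⟨w, t, h2, h3⟩ := big (T + N)
  have ha : 0 < w (2 * t + 1) :=
    h2.2.2.2.1.trans_le (mono_of h2.2.2.2.2 le_rfl (by omega) le_rfl)
  have grow : ∀ j : ℕ, ∃ w' t', St w' t' ∧ T + N ≤ t' ∧
      2 ^ j * w (2 * t + 1) ≤ w' (2 * t' + 1) := by
    intro j
    induction j with
    | zero => exact ⟨w, t, h2, h3, by simp⟩
    | succ j ih =>
      obtain ⟨w1, t1, a, b, d⟩ := ih
      obtain ⟨w2, t2, a2, b2, d2⟩ := nx w1 t1 a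
      have := d2 (by omega) (hT.trans (by exact_mod_cast (show T ≤ t1 by omega)))
      exact ⟨w2, t2, a2, by omega, by rw [pow_succ]; linarith⟩
  obtain ⟨j, hj⟩ := pow_unbounded_of_one_lt (M / w (2 * t + 1)) (show (1:ℝ) < 2 by norm_num)
  obtain ⟨w', t', a, -, d⟩ := grow j
  rw [div_lt_iff₀ ha] at hj
  linarith [(abs_le.mp (a.2.2.1 (2 * t' + 1))).2]

theorem result :
    (∀ μ : ℝ, 0 < μ → ∀ y : ℕ → ℝ, IsSol μ y →
      ((∃ M, ∀ n, |y n| ≤ M) ↔ y 0 = μ * (exp (y 0) - 1))) ∧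
    ∃ (μ : ℝ) (y : ℕ → ℝ), 0 < μ ∧ IsSol μ y ∧ 0 < y 0 ∧ ∃ M, ∀ n, |y n| ≤ M := by
  constructor
  · intro μ hμ y h
    have e1 : y 1 = y 0 + μ * (1 - exp (y 0)) := h.1 0
    constructor
    · rintro ⟨M, hM⟩
      have hS : Sys (μ * exp (-M)) (μ * exp M) y (fun i => μ * (exp (y i) - 1)) := by
        have hM0 : 0 ≤ M := (abs_nonneg _).trans (hM 0)
        have a1 : exp (-M) ≤ 1 := exp_le_one_iff.mpr (by linarith)
        have a2 : 1 ≤ exp M := one_le_exp hM0
        have b : ∀ u, u ≤ exp u - 1 ∧ exp u - 1 ≤ exp u * u := fun u => by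
          have h1 := add_one_le_exp (-u)
          have h2 : exp u * exp (-u) = 1 := by rw [← exp_add]; simp
          exact ⟨by linarith [add_one_le_exp u], by nlinarith [exp_pos u]⟩
        refine ⟨fun m => by rw [step h]; ring, fun i hi => ?_, fun i hi => ?_⟩
        · have a3 : exp (y i) ≤ exp M := exp_le_exp.mpr (abs_le.mp (hM i)).2
          constructor <;> rw [mul_assoc] <;> refine mul_le_mul_of_nonneg_left ?_ hμ.le <;>
            nlinarith [b (y i)]
        · have a3 : exp (-M) ≤ exp (y i) := exp_le_exp.mpr (abs_le.mp (hM i)).1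
          constructor <;> rw [mul_assoc] <;> refine mul_le_mul_of_nonneg_left ?_ hμ.le <;>
            nlinarith [b (y i)]
      rcases lt_trichotomy (y 1) 0 with h1 | h1 | h1
      · exact (hS.neg.unbdd (by positivity) (by positivity) (by linarith) M
          (by simpa using hM)).elim
      · linarith
      · exact (hS.unbdd (by positivity) (by positivity) h1 M hM).elim
    · intro h0
      have hz : ∀ m, y (m + 1) = 0 := by
        intro m
        induction m using Nat.strong_induction_on with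
        | _ m ih =>
          rcases m with _ | m
          · linarith
          · obtain ⟨k, hk⟩ : ∃ k, (m + 1 + 1) / 2 = k + 1 := ⟨m / 2, by omega⟩
            rw [step h, hk, ih m (by omega), ih k (by omega)]
            simp
      refine ⟨|y 0|, fun n => ?_⟩
      rcases n with _ | n
      · rfl
      · rw [hz]; simp
  · refine ⟨log 2, fun n => if n = 0 then log 2 else 0, log_pos one_lt_two, ⟨fun n => ?_,
      fun n hn => ?_⟩, log_pos one_lt_two, |log 2|, fun n => ?_⟩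
    · rcases n with _ | n
      · simp [exp_log]; norm_num
      · simp
    · simp only
      rw [if_neg (by omega), if_neg (by omega), if_neg (by omega)]; simp
    · simp only
      split_ifs <;> simp

end Pool.Agent.Results.MP_1375b8_an.Bounded
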